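import Pool.Agent.N422.NWS.Stm
import Pool.Agent.N422.NW.JEN

/-! Project NWS (helper136, helper422), package WIN (helper808): the averages in one window. -/

set_option autoImplicit false

open Finset

namespace Pool.Agent.U808.NWS

open Pool.Agent.N422.NW Pool.Agent.N422.NWS

/-- mean value over the circle, as a function of the angle -/
noncomputable def Av (f : ℝ → ℝ) : ℝ := (2 * Real.pi)⁻¹ * ∫ θ in (0 : ℝ)..2 * Real.pi, f θ

lemma circ_Av (F : ℂ → ℝ) : Real.circleAverage F 0 1 = Av (fun θ => F (circleMap 0 1 θ)) := by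
  simp [Real.circleAverage, Av]

lemma Av_mono {f g : ℝ → ℝ} (hf : Continuous f) (hg : Continuous g) (h : ∀ θ, f θ ≤ g θ) : Av f ≤ Av g := by
  unfold Av
  refine mul_le_mul_of_nonneg_left ?_ (by positivity)
  exact intervalIntegral.integral_mono_on (by positivity) (hf.intervalIntegrable _ _) (hg.intervalIntegrable _ _)
    (fun x _ => h x)

lemma Av_add {f g : ℝ → ℝ} (hf : Continuous f) (hg : Continuous g) : Av (fun θ => f θ + g θ) = Av f + Av g := by
  unfold Av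
  rw [intervalIntegral.integral_add (hf.intervalIntegrable _ _) (hg.intervalIntegrable _ _), mul_add]

lemma Av_mul {f : ℝ → ℝ} (c : ℝ) : Av (fun θ => c * f θ) = c * Av f := by
  unfold Av
  rw [intervalIntegral.integral_const_mul]
  ring

lemma Av_sum {ι : Type} (s : Finset ι) (f : ι → ℝ → ℝ) (hf : ∀ i ∈ s, Continuous (f i)) :
    Av (fun θ => ∑ i ∈ s, f i θ) = ∑ i ∈ s, Av (f i) := by
  unfold Av
  rw [intervalIntegral.integral_finsetSum (fun i hi => (hf i hi).intervalIntegrable _ _), mul_sum]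

lemma Av_nonneg {f : ℝ → ℝ} (h : ∀ θ, 0 ≤ f θ) : 0 ≤ Av f := by
  unfold Av
  exact mul_nonneg (by positivity) (intervalIntegral.integral_nonneg (by positivity) (fun x _ => h x))

lemma sc_le {x : ℝ} (h0 : 0 ≤ x) (h1 : x ≤ 1 / 2) : Real.sinh x * Real.cosh x ≤ x * (1 + x ^ 2) := by
  have e1 : Real.sinh x * Real.cosh x = (Real.exp (2 * x) - Real.exp (-(2 * x))) / 4 := by
    have e2 : Real.exp (2 * x) = Real.exp x * Real.exp x := by rw [two_mul, Real.exp_add]
    have e3 : Real.exp (-(2 * x)) = Real.exp (-x) * Real.exp (-x) := by rw [← Real.exp_add]; ring_nf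
    rw [Real.sinh_eq, Real.cosh_eq, e2, e3]
    ring
  have ha : |2 * x| = 2 * x := abs_of_nonneg (by linarith)
  have h2 := Real.exp_bound (x := 2 * x) (by rw [ha]; linarith) (n := 3) (by norm_num)
  have h3 := Real.exp_bound (x := -(2 * x)) (by rw [abs_neg, ha]; linarith) (n := 3) (by norm_num)
  rw [abs_neg (2 * x)] at h3
  rw [ha] at h2 h3
  simp only [Finset.sum_range_succ, Finset.sum_range_zero, Nat.factorial] at h2 h3
  norm_num at h2 h3
  have h4 := (abs_le.1 h2).2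
  have h5 := (abs_le.1 h3).1
  rw [e1]
  nlinarith [pow_nonneg h0 3]

lemma log_lb {y : ℝ} (h : |y| ≤ 1 / 2) : -y - y ^ 2 / 2 - 2 * |y| ^ 3 ≤ Real.log (1 - y) := by
  have h1 := Real.abs_log_sub_add_sum_range_le (x := y) (by linarith) 2
  simp only [Finset.sum_range_succ, Finset.sum_range_zero] at h1
  norm_num at h1
  have h2 : |y| ^ 3 / (1 - |y|) ≤ 2 * |y| ^ 3 := by
    rw [div_le_iff₀ (by linarith)]
    nlinarith [pow_nonneg (abs_nonneg y) 3]
  have h3 := (abs_le.1 (h1.trans h2)).1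
  linarith

lemma pt {y1 y2 c B C : ℝ} (hc0 : 0 ≤ c) (hc3 : c ≤ 3) (hC : 1 ≤ C) (hB : 0 < B) (h1 : |y1| ≤ C * c)
    (h2 : |y2| ≤ C ^ 3 * c) (hBC2 : B * C ^ 2 ≤ 1) (hBC : 12 * B * C ≤ 1) :
    |B * y1 + B ^ 2 * y2| ≤ 2 * B * C * c ∧
    -B * y1 + -B ^ 2 * y2 + -B ^ 2 * (y1 ^ 2 / 2) + (-50 * B ^ 3 * C ^ 6) * c ^ 2 ≤
      Real.log (1 - (B * y1 + B ^ 2 * y2)) := by
  have hC0 : 0 < C := by linarith
  have hy : |B * y1 + B ^ 2 * y2| ≤ 2 * B * C * c := by
    calc |B * y1 + B ^ 2 * y2| ≤ |B * y1| + |B ^ 2 * y2| := abs_add_le _ _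
      _ = B * |y1| + B ^ 2 * |y2| := by
          rw [abs_mul, abs_mul, abs_of_pos hB, abs_of_pos (pow_pos hB 2)]
      _ ≤ B * (C * c) + B ^ 2 * (C ^ 3 * c) := by gcongr
      _ = B * (C * c) + (B * C ^ 2) * (B * (C * c)) := by ring
      _ ≤ B * (C * c) + 1 * (B * (C * c)) := by gcongr
      _ = 2 * B * C * c := by ring
  refine ⟨hy, ?_⟩
  set y := B * y1 + B ^ 2 * y2 with hyd
  have hy2 : |y| ≤ 1 / 2 := by
    refine hy.trans ?_
    have : B * C * c ≤ B * C * 3 := by gcongr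
    nlinarith
  have h3 := log_lb hy2
  have hB1 : B ≤ 1 := by nlinarith [mul_le_mul_of_nonneg_left hC hB.le]
  have hC3 : C ^ 3 ≤ C ^ 6 := pow_le_pow_right₀ hC (by norm_num)
  have hC4 : C ^ 4 ≤ C ^ 6 := pow_le_pow_right₀ hC (by norm_num)
  have e1 : y1 * y2 ≤ C ^ 4 * c ^ 2 := by
    calc y1 * y2 ≤ |y1 * y2| := le_abs_self _
      _ = |y1| * |y2| := abs_mul _ _
      _ ≤ (C * c) * (C ^ 3 * c) := by gcongr
      _ = C ^ 4 * c ^ 2 := by ring
  have e2 : y2 ^ 2 ≤ C ^ 6 * c ^ 2 := by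
    calc y2 ^ 2 = |y2| ^ 2 := (sq_abs _).symm
      _ ≤ (C ^ 3 * c) ^ 2 := by gcongr
      _ = C ^ 6 * c ^ 2 := by ring
  have e3 : |y| ^ 3 ≤ 24 * B ^ 3 * C ^ 3 * c ^ 2 := by
    calc |y| ^ 3 ≤ (2 * B * C * c) ^ 3 := by gcongr
      _ = 8 * B ^ 3 * C ^ 3 * c ^ 2 * c := by ring
      _ ≤ 8 * B ^ 3 * C ^ 3 * c ^ 2 * 3 := by gcongr
      _ = 24 * B ^ 3 * C ^ 3 * c ^ 2 := by ring
  have e4 : B ^ 3 * (C ^ 4 * c ^ 2) ≤ B ^ 3 * C ^ 6 * c ^ 2 := by
    calc B ^ 3 * (C ^ 4 * c ^ 2) = B ^ 3 * c ^ 2 * C ^ 4 := by ring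
      _ ≤ B ^ 3 * c ^ 2 * C ^ 6 := by gcongr
      _ = _ := by ring
  have e5 : B ^ 4 * (C ^ 6 * c ^ 2) ≤ B ^ 3 * C ^ 6 * c ^ 2 := by
    calc B ^ 4 * (C ^ 6 * c ^ 2) = B * (B ^ 3 * C ^ 6 * c ^ 2) := by ring
      _ ≤ 1 * (B ^ 3 * C ^ 6 * c ^ 2) := by gcongr
      _ = _ := by ring
  have e6 : 24 * B ^ 3 * C ^ 3 * c ^ 2 ≤ 24 * B ^ 3 * C ^ 6 * c ^ 2 := by
    calc 24 * B ^ 3 * C ^ 3 * c ^ 2 = 24 * B ^ 3 * c ^ 2 * C ^ 3 := by ring
      _ ≤ 24 * B ^ 3 * c ^ 2 * C ^ 6 := by gcongr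
      _ = _ := by ring
  have e7 : y ^ 2 = B ^ 2 * y1 ^ 2 + 2 * (B ^ 3 * (y1 * y2)) + B ^ 4 * y2 ^ 2 := by rw [hyd]; ring
  have e8 : B ^ 3 * (y1 * y2) ≤ B ^ 3 * (C ^ 4 * c ^ 2) := by gcongr
  have e9 : B ^ 4 * y2 ^ 2 ≤ B ^ 4 * (C ^ 6 * c ^ 2) := by gcongr
  have e10 : 0 ≤ B ^ 3 * C ^ 6 * c ^ 2 := by positivity
  have e11 : y = B * y1 + B ^ 2 * y2 := hyd
  linarith

lemma ee_le {m : ℕ} {p : Fin m → ℝ} (hp : ∀ c, 0 ≤ p c ∧ p c ≤ 1 / 2) (A X : Finset (Fin m)) :
    |ee p A X| ≤ 1 := by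
  unfold ee
  rw [Finset.abs_prod]
  refine Finset.prod_le_one (fun _ _ => abs_nonneg _) (fun c _ => ?_)
  have := hp c
  split_ifs <;> rw [abs_le] <;> constructor <;> linarith

/-- the pointwise bound for a sum over nonempty sets of cells -/
lemma sum_bd {m : ℕ} {p : Fin m → ℝ} (hp : ∀ c, 0 ≤ p c ∧ p c ≤ 1 / 2) (X : Finset (Fin m))
    (α r : Finset (Fin m) → ℝ) (K R : ℝ) (hK : 0 ≤ K) (hR : 0 ≤ R)
    (hα : ∀ A ∈ univ.erase (∅ : Finset (Fin m)), |α A| ≤ K)
    (hr : ∀ A ∈ univ.erase (∅ : Finset (Fin m)), |r A| ≤ R) :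
    |∑ A ∈ univ.erase (∅ : Finset (Fin m)), α A * r A * ee p A X| ≤ 2 ^ m * (K * R) := by
  calc |∑ A ∈ univ.erase (∅ : Finset (Fin m)), α A * r A * ee p A X|
      ≤ ∑ A ∈ univ.erase (∅ : Finset (Fin m)), |α A * r A * ee p A X| := Finset.abs_sum_le_sum_abs _ _
    _ ≤ ∑ A ∈ univ.erase (∅ : Finset (Fin m)), K * R := by
        refine Finset.sum_le_sum fun A hA => ?_
        rw [abs_mul, abs_mul]
        calc |α A| * |r A| * |ee p A X| ≤ (K * R) * 1 := by
              refine mul_le_mul (mul_le_mul (hα A hA) (hr A hA) (abs_nonneg _) hK) (ee_le hp A X)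
                (abs_nonneg _) (by positivity)
          _ = K * R := mul_one _
    _ = ((univ.erase (∅ : Finset (Fin m))).card : ℝ) * (K * R) := by rw [Finset.sum_const, nsmul_eq_mul]
    _ ≤ 2 ^ m * (K * R) := by
        refine mul_le_mul_of_nonneg_right ?_ (by positivity)
        have h1 : (univ.erase (∅ : Finset (Fin m))).card ≤ 2 ^ m := by
          calc (univ.erase (∅ : Finset (Fin m))).card ≤ (univ : Finset (Finset (Fin m))).card :=
                Finset.card_erase_le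
            _ = 2 ^ m := by rw [Finset.card_univ, Fintype.card_finset, Fintype.card_fin]
        exact_mod_cast h1

/-- the quadratic term -/
lemma quad (hC : S_CUBE) {m : ℕ} {p : Fin m → ℝ} (hp : ∀ c, 0 ≤ p c ∧ p c ≤ 1 / 2) (α : Finset (Fin m) → ℝ)
    (r : Finset (Fin m) → ℝ → ℝ) (hr : ∀ A, Continuous (r A)) :
    ∑ X, wc p X * Av (fun θ => (∑ A ∈ univ.erase (∅ : Finset (Fin m)), α A * r A θ * ee p A X) ^ 2 / 2) =
      ∑ A ∈ univ.erase (∅ : Finset (Fin m)), (α A ^ 2 * (∏ c ∈ A, p c * (1 - p c)) / 2) *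
        Av (fun θ => r A θ ^ 2) := by
  have h3 := (hC m p hp).2.2.1
  have hc : ∀ X, Continuous (fun θ => ∑ A ∈ univ.erase (∅ : Finset (Fin m)), α A * r A θ * ee p A X) := by
    intro X
    refine continuous_finsetSum _ (fun A _ => ?_)
    exact (continuous_const.mul (hr A)).mul continuous_const
  calc ∑ X, wc p X * Av (fun θ => (∑ A ∈ univ.erase (∅ : Finset (Fin m)), α A * r A θ * ee p A X) ^ 2 / 2)
      = ∑ X, Av (fun θ => wc p X *
          ((∑ A ∈ univ.erase (∅ : Finset (Fin m)), α A * r A θ * ee p A X) ^ 2 / 2)) := by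
        refine Finset.sum_congr rfl fun X _ => ?_
        rw [Av_mul]
    _ = Av (fun θ => ∑ X, wc p X *
          ((∑ A ∈ univ.erase (∅ : Finset (Fin m)), α A * r A θ * ee p A X) ^ 2 / 2)) := by
        rw [Av_sum]
        intro X _
        exact continuous_const.mul (((hc X).pow 2).div_const 2)
    _ = Av (fun θ => ∑ A ∈ univ.erase (∅ : Finset (Fin m)), (α A ^ 2 * (∏ c ∈ A, p c * (1 - p c)) / 2) *
          r A θ ^ 2) := by
        congr 1
        funext θ
        have e1 : ∀ X, wc p X * ((∑ A ∈ univ.erase (∅ : Finset (Fin m)), α A * r A θ * ee p A X) ^ 2 / 2) =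
            ∑ A ∈ univ.erase (∅ : Finset (Fin m)), ∑ A' ∈ univ.erase (∅ : Finset (Fin m)),
              (α A * r A θ * (α A' * r A' θ) / 2) * (wc p X * (ee p A X * ee p A' X)) := by
          intro X
          rw [sq, Finset.sum_mul_sum, Finset.sum_div, Finset.mul_sum]
          refine Finset.sum_congr rfl fun A _ => ?_
          rw [Finset.sum_div, Finset.mul_sum]
          refine Finset.sum_congr rfl fun A' _ => ?_
          ring
        simp_rw [e1]
        rw [Finset.sum_comm]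
        refine Finset.sum_congr rfl fun A hA => ?_
        rw [Finset.sum_comm]
        simp_rw [← Finset.mul_sum, h3]
        rw [Finset.sum_eq_single A]
        · rw [if_pos rfl]
          ring
        · intro A' _ hne
          rw [if_neg (Ne.symm hne), mul_zero]
        · intro h
          exact absurd hA h
    _ = _ := by
        rw [Av_sum]
        · refine Finset.sum_congr rfl fun A _ => ?_
          rw [Av_mul]
        · intro A _
          exact continuous_const.mul ((hr A).pow 2)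

theorem t_WIN (hT : S_TRIG) (hC : S_CUBE) : S_WIN := by
  intro m hs ε hhs hε
  set M : ℝ := (sz hs univ : ℝ) + 1 with hM
  have hM1 : 1 ≤ M := by rw [hM]; linarith [Nat.cast_nonneg (α := ℝ) (sz hs univ)]
  set C : ℝ := 4 ^ m * (4 * M ^ 2) with hCd
  have hC1 : 1 ≤ C := by
    have h1 : (1 : ℝ) ≤ 4 ^ m := one_le_pow₀ (by norm_num)
    have h2 : 1 ≤ M ^ 2 := one_le_pow₀ hM1
    rw [hCd]
    nlinarith
  have hC0 : 0 < C := by linarith
  set ε1 : ℝ := min ε 1 with hε1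
  have hε0 : 0 < ε1 := lt_min hε one_pos
  have hεe : ε1 ≤ ε := min_le_left _ _
  have hε11 : ε1 ≤ 1 := min_le_right _ _
  set κ : ℝ := ε1 / 24 with hκ
  have hκ0 : 0 < κ := by rw [hκ]; positivity
  refine ⟨κ, min (κ / (2 * C)) (ε1 / (100 * C ^ 6)), ε1 / (8 * M), hκ0, lt_min (by positivity) (by positivity),
    by positivity, ?_⟩
  intro v t hv ht hvt p hp B hB hBB
  have hv0 : (1 : ℝ) ≤ v := by exact_mod_cast hv
  have hvt0 : 0 < (v : ℝ) * t := by positivity
  have hB1 : B ≤ κ / (2 * C) := hBB.trans (min_le_left _ _)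
  have hB2 : B ≤ ε1 / (100 * C ^ 6) := hBB.trans (min_le_right _ _)
  have hBκ : 2 * B * C ≤ κ := by
    rw [le_div_iff₀ (by positivity)] at hB1
    linarith
  have hB6 : 100 * B * C ^ 6 ≤ ε1 := by
    rw [le_div_iff₀ (by positivity)] at hB2
    linarith
  have hBC : 12 * B * C ≤ 1 := by
    have : κ ≤ 1 / 24 := by rw [hκ]; linarith
    linarith
  have hBC2 : B * C ^ 2 ≤ 1 := by
    have h1 : C ^ 2 ≤ C ^ 6 := pow_le_pow_right₀ hC1 (by norm_num)
    have h2 : B * C ^ 2 ≤ B * C ^ 6 := by gcongr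
    nlinarith [mul_pos hB (pow_pos hC0 6)]
  have hvtM : M * (v * t) ≤ ε1 / 8 := by
    rw [le_div_iff₀ (by positivity)] at hvt
    linarith
  have hvt1 : (v : ℝ) * t ≤ 1 / 8 := by nlinarith
  obtain ⟨hz1, hav⟩ := hT v t hv ht (by linarith)
  -- sizes
  have hsz1 : ∀ A ∈ univ.erase (∅ : Finset (Fin m)), 1 ≤ sz hs A := by
    intro A hA
    obtain ⟨c, hc⟩ := Finset.nonempty_iff_ne_empty.2 (Finset.ne_of_mem_erase hA)
    exact (hhs c).trans (Finset.single_le_sum (f := hs) (fun _ _ => Nat.zero_le _) hc)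
  have hszM : ∀ A : Finset (Fin m), (sz hs A : ℝ) ≤ M := by
    intro A
    have h1 : sz hs A ≤ sz hs univ := Finset.sum_le_sum_of_subset (Finset.subset_univ A)
    have h2 : (sz hs A : ℝ) ≤ (sz hs univ : ℝ) := by exact_mod_cast h1
    rw [hM]; linarith
  have hx : ∀ A : Finset (Fin m), ((v * sz hs A : ℕ) : ℝ) * t ≤ ε1 / 8 := by
    intro A
    push_cast
    calc (v : ℝ) * sz hs A * t = sz hs A * (v * t) := by ring
      _ ≤ M * (v * t) := by gcongr; exact hszM A
      _ ≤ _ := hvtM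
  have hx1 : ∀ A ∈ univ.erase (∅ : Finset (Fin m)), (v : ℝ) * t ≤ ((v * sz hs A : ℕ) : ℝ) * t := by
    intro A hA
    have h1 : (1 : ℝ) ≤ sz hs A := by exact_mod_cast hsz1 A hA
    push_cast
    nlinarith
  have hcA : ∀ z : ℂ, ‖z‖ = 1 → ∀ A ∈ univ.erase (∅ : Finset (Fin m)), 0 < cr t (v * sz hs A) z ∧
      cr t (v * sz hs A) z ≤ 2 * M ^ 2 * cr t v z := by
    intro z hz A hA
    have h1 : 1 ≤ v * sz hs A := Nat.one_le_iff_ne_zero.2 (Nat.mul_ne_zero (by omega) (by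
      have := hsz1 A hA; omega))
    refine ⟨((hT (v * sz hs A) t h1 ht (by linarith [hx A])).1 z hz).1, ?_⟩
    obtain ⟨h2, h3, h4⟩ := hz1 z hz
    refine (h4 (sz hs A) (hsz1 A hA) (by
      calc (sz hs A : ℝ) * (v * t) ≤ M * (v * t) := by gcongr; exact hszM A
        _ ≤ 1 := by linarith)).trans ?_
    gcongr
    exact hszM A
  -- the normalised functions
  have hDz : ∀ z : ℂ, ‖z‖ = 1 → 1 - ε1 / 8 ≤ 1 - κ * cr t v z ∧ 1 - κ * cr t v z ≤ 1 := by
    intro z hz
    obtain ⟨h2, h3, -⟩ := hz1 z hz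
    constructor
    · have : κ * cr t v z ≤ κ * 3 := by gcongr
      rw [hκ] at this ⊢
      linarith
    · have := mul_nonneg hκ0.le h2.le
      linarith
  have hrz : ∀ z : ℂ, ‖z‖ = 1 → ∀ A ∈ univ.erase (∅ : Finset (Fin m)),
      |cr t (v * sz hs A) z / (1 - κ * cr t v z)| ≤ 4 * M ^ 2 * cr t v z := by
    intro z hz A hA
    obtain ⟨h1, h2⟩ := hDz z hz
    obtain ⟨h3, h4⟩ := hcA z hz A hA
    have h5 : 0 < 1 - κ * cr t v z := by linarith
    rw [abs_of_nonneg (by positivity), div_le_iff₀ h5]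
    have h6 : 0 < cr t v z := (hz1 z hz).1
    have h7 : 0 ≤ M ^ 2 * cr t v z := by positivity
    nlinarith
  obtain ⟨hpsi, -, -⟩ := t_AV 0 t ht
  set Z : ℝ → ℂ := fun θ => psi (Real.exp (-t)) (circleMap 0 1 θ) with hZd
  have hZ : ∀ θ, ‖Z θ‖ = 1 := fun θ => hpsi _ (by simp)
  have hcc : ∀ x : ℕ, Continuous (fun θ => cr t x (Z θ)) := fun x => (hav x).1
  have hav1 : ∀ x : ℕ, Av (fun θ => cr t x (Z θ)) = Real.sinh (x * t) := by
    intro x
    rw [← (hav x).2.1, circ_Av]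
  have hav2 : ∀ x : ℕ, Av (fun θ => cr t x (Z θ) ^ 2) = Real.sinh (x * t) * Real.cosh (x * t) := by
    intro x
    rw [← (hav x).2.2, circ_Av]
  set r : Finset (Fin m) → ℝ → ℝ := fun A θ => cr t (v * sz hs A) (Z θ) / (1 - κ * cr t v (Z θ)) with hrd
  have hrc : ∀ A, Continuous (r A) := by
    intro A
    refine (hcc _).div₀ (continuous_const.sub (continuous_const.mul (hcc v))) (fun θ => ?_)
    have := (hDz (Z θ) (hZ θ)).1
    exact ne_of_gt (by linarith)
  set W : Finset (Fin m) → ℝ := fun A => Av (r A) with hWd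
  have hW : ∀ A ∈ univ.erase (∅ : Finset (Fin m)), ((v * sz hs A : ℕ) : ℝ) * t ≤ W A := by
    intro A hA
    calc ((v * sz hs A : ℕ) : ℝ) * t ≤ Real.sinh (((v * sz hs A : ℕ) : ℝ) * t) :=
          Real.self_le_sinh_iff.2 (by positivity)
      _ = Av (fun θ => cr t (v * sz hs A) (Z θ)) := (hav1 _).symm
      _ ≤ W A := by
          refine Av_mono (hcc _) (hrc A) fun θ => ?_
          obtain ⟨h1, h2⟩ := hDz (Z θ) (hZ θ)
          obtain ⟨h3, -⟩ := hcA (Z θ) (hZ θ) A hA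
          have h5 : 0 < 1 - κ * cr t v (Z θ) := by linarith
          rw [hrd, le_div_iff₀ h5]
          nlinarith
  have hWvt : ∀ A ∈ univ.erase (∅ : Finset (Fin m)), (v : ℝ) * t ≤ W A := fun A hA => (hx1 A hA).trans (hW A hA)
  have hW0 : ∀ A ∈ univ.erase (∅ : Finset (Fin m)), 0 < W A := fun A hA => hvt0.trans_le (hWvt A hA)
  -- the first coefficients
  have hP : ∀ A : Finset (Fin m), 0 < ∏ c ∈ A, (1 - p c) ∧ (∏ c ∈ A, (1 - p c))⁻¹ ≤ 2 ^ m := by
    intro A
    have h1 : ((1 : ℝ) / 2) ^ m ≤ ∏ c ∈ A, (1 - p c) := by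
      calc ((1 : ℝ) / 2) ^ m ≤ (1 / 2) ^ A.card := by
            refine pow_le_pow_of_le_one (by norm_num) (by norm_num) ?_
            simpa using Finset.card_le_univ A
        _ = ∏ c ∈ A, (1 / 2 : ℝ) := by rw [Finset.prod_const]
        _ ≤ ∏ c ∈ A, (1 - p c) := Finset.prod_le_prod (fun _ _ => by norm_num) (fun c _ => by
            have := (hp c).2; linarith)
    have h0 : (0 : ℝ) < (1 / 2) ^ m := by positivity
    refine ⟨h0.trans_le h1, ?_⟩
    rw [inv_le_comm₀ (h0.trans_le h1) (by positivity)]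
    refine le_trans (le_of_eq ?_) h1
    rw [one_div, inv_pow]
  set a1 : Finset (Fin m) → ℝ := fun A => -((-1) ^ A.card * (∏ c ∈ A, (1 - p c))⁻¹ * (v * t / W A)) with ha1
  have ha1b : ∀ A ∈ univ.erase (∅ : Finset (Fin m)), |a1 A| ≤ 2 ^ m := by
    intro A hA
    have h1 : v * t / W A ≤ 1 := (div_le_one (hW0 A hA)).2 (hWvt A hA)
    have h2 : 0 < v * t / W A := div_pos hvt0 (hW0 A hA)
    have h3 := (hP A).1
    rw [ha1]
    simp only [abs_neg, abs_mul, abs_pow, abs_one, one_pow, one_mul]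
    rw [abs_of_pos (inv_pos.2 h3), abs_of_pos h2]
    calc (∏ c ∈ A, (1 - p c))⁻¹ * (v * t / W A) ≤ 2 ^ m * 1 := by
          refine mul_le_mul (hP A).2 h1 h2.le (by positivity)
      _ = 2 ^ m := mul_one _
  -- the sums
  have hy1 : ∀ z : ℂ, ‖z‖ = 1 → ∀ X : Finset (Fin m), |∑ A ∈ univ.erase (∅ : Finset (Fin m)),
      a1 A * (cr t (v * sz hs A) z / (1 - κ * cr t v z)) * ee p A X| ≤ C * cr t v z := by
    intro z hz X
    have h6 : 0 < cr t v z := (hz1 z hz).1
    refine (sum_bd hp X a1 _ (2 ^ m) (4 * M ^ 2 * cr t v z) (by positivity) (by positivity) ha1b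
      (fun A hA => hrz z hz A hA)).trans (le_of_eq ?_)
    rw [hCd, show (4 : ℝ) = 2 * 2 by norm_num, mul_pow]
    ring
  have hyc : ∀ (α : Finset (Fin m) → ℝ) (X : Finset (Fin m)), Continuous (fun θ =>
      ∑ A ∈ univ.erase (∅ : Finset (Fin m)), α A * r A θ * ee p A X) := by
    intro α X
    refine continuous_finsetSum _ (fun A _ => ?_)
    exact (continuous_const.mul (hrc A)).mul continuous_const
  set q : Finset (Fin m) → ℝ := fun X => Av (fun θ =>
    (∑ A ∈ univ.erase (∅ : Finset (Fin m)), a1 A * r A θ * ee p A X) ^ 2 / 2) with hq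
  have hvsc : Av (fun θ => cr t v (Z θ) ^ 2) ≤ 2 * (v * t) := by
    rw [hav2]
    refine (sc_le hvt0.le (by linarith)).trans ?_
    nlinarith [sq_nonneg ((v : ℝ) * t)]
  have hqb : ∀ X, |q X| ≤ C ^ 2 * (v * t) := by
    intro X
    rw [abs_of_nonneg (Av_nonneg (fun θ => by positivity))]
    calc q X ≤ Av (fun θ => (C ^ 2 / 2) * cr t v (Z θ) ^ 2) := by
          refine Av_mono (((hyc a1 X).pow 2).div_const 2) (continuous_const.mul ((hcc v).pow 2)) fun θ => ?_
          have h1 := hy1 (Z θ) (hZ θ) X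
          have h2 : (∑ A ∈ univ.erase (∅ : Finset (Fin m)), a1 A * r A θ * ee p A X) ^ 2 ≤
              (C * cr t v (Z θ)) ^ 2 := by
            rw [← sq_abs]
            exact pow_le_pow_left₀ (abs_nonneg _) h1 2
          nlinarith [h2]
      _ = (C ^ 2 / 2) * Av (fun θ => cr t v (Z θ) ^ 2) := Av_mul _
      _ ≤ (C ^ 2 / 2) * (2 * (v * t)) := by gcongr
      _ = C ^ 2 * (v * t) := by ring
  obtain ⟨gh, hgh1, hgh0, hghX⟩ := (hC m p hp).1 q (C ^ 2 * (v * t)) hqb
  set a2 : Finset (Fin m) → ℝ := fun A => -(gh A / W A) with ha2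
  have ha2b : ∀ A ∈ univ.erase (∅ : Finset (Fin m)), |a2 A| ≤ 2 ^ m * C ^ 2 := by
    intro A hA
    have h3 := hW0 A hA
    rw [ha2]
    simp only [abs_neg, abs_div, abs_of_pos h3]
    rw [div_le_iff₀ h3]
    calc |gh A| ≤ 2 ^ m * (C ^ 2 * (v * t)) := hgh1 A
      _ ≤ 2 ^ m * (C ^ 2 * W A) := by gcongr; exact hWvt A hA
      _ = 2 ^ m * C ^ 2 * W A := by ring
  have hy2 : ∀ z : ℂ, ‖z‖ = 1 → ∀ X : Finset (Fin m), |∑ A ∈ univ.erase (∅ : Finset (Fin m)),
      a2 A * (cr t (v * sz hs A) z / (1 - κ * cr t v z)) * ee p A X| ≤ C ^ 3 * cr t v z := by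
    intro z hz X
    have h6 : 0 < cr t v z := (hz1 z hz).1
    refine (sum_bd hp X a2 _ (2 ^ m * C ^ 2) (4 * M ^ 2 * cr t v z) (by positivity) (by positivity) ha2b
      (fun A hA => hrz z hz A hA)).trans (le_of_eq ?_)
    have e1 : C ^ 3 = C ^ 2 * C := by ring
    rw [e1]
    nth_rewrite 3 [hCd]
    rw [show (4 : ℝ) ^ m = 2 ^ m * 2 ^ m by rw [← mul_pow]; norm_num]
    ring
  refine ⟨fun A => B * a1 A + B ^ 2 * a2 A, fun X => ?_⟩
  have hth : ∀ z : ℂ, ‖z‖ = 1 → th κ (fun x => cr t x z) v hs p (fun A => B * a1 A + B ^ 2 * a2 A) X =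
      κ * cr t v z + (1 - κ * cr t v z) * (B * (∑ A ∈ univ.erase (∅ : Finset (Fin m)),
        a1 A * (cr t (v * sz hs A) z / (1 - κ * cr t v z)) * ee p A X) +
        B ^ 2 * (∑ A ∈ univ.erase (∅ : Finset (Fin m)),
        a2 A * (cr t (v * sz hs A) z / (1 - κ * cr t v z)) * ee p A X)) := by
    intro z hz
    have h5 : (1 - κ * cr t v z) ≠ 0 := by
      have := (hDz z hz).1
      exact ne_of_gt (by linarith)
    unfold th
    congr 1
    rw [Finset.mul_sum, Finset.mul_sum, ← Finset.sum_add_distrib, Finset.mul_sum]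
    refine Finset.sum_congr rfl fun A _ => ?_
    field_simp
  have hpt : ∀ z : ℂ, ‖z‖ = 1 → _ := fun z hz => pt (hz1 z hz).1.le (hz1 z hz).2.1 hC1 hB (hy1 z hz X)
    (hy2 z hz X) hBC2 hBC
  refine ⟨fun z hz => ?_, ?_⟩
  · have h1 := (hpt z hz).1
    rw [hth z hz]
    obtain ⟨h2, h3⟩ := hDz z hz
    obtain ⟨h4, h5, -⟩ := hz1 z hz
    set y := B * (∑ A ∈ univ.erase (∅ : Finset (Fin m)),
        a1 A * (cr t (v * sz hs A) z / (1 - κ * cr t v z)) * ee p A X) +
        B ^ 2 * (∑ A ∈ univ.erase (∅ : Finset (Fin m)),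
        a2 A * (cr t (v * sz hs A) z / (1 - κ * cr t v z)) * ee p A X) with hy
    have h6 : |(1 - κ * cr t v z) * y| ≤ κ * cr t v z := by
      rw [abs_mul, abs_of_nonneg (by linarith)]
      calc (1 - κ * cr t v z) * |y| ≤ 1 * (2 * B * C * cr t v z) := by
            refine mul_le_mul h3 h1 (abs_nonneg _) zero_le_one
        _ = (2 * B * C) * cr t v z := by ring
        _ ≤ κ * cr t v z := by gcongr
    obtain ⟨h7, h8⟩ := abs_le.1 h6
    have h9 : κ * cr t v z ≤ κ * 3 := by gcongr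
    have h10 : 0 ≤ κ * cr t v z := by positivity
    have h11 : κ ≤ 1 / 24 := by rw [hκ]; linarith
    exact ⟨by linarith, by linarith, h10, by linarith⟩
  · -- the average
    set y1 : ℝ → ℝ := fun θ => ∑ A ∈ univ.erase (∅ : Finset (Fin m)), a1 A * r A θ * ee p A X with hy1d
    set y2 : ℝ → ℝ := fun θ => ∑ A ∈ univ.erase (∅ : Finset (Fin m)), a2 A * r A θ * ee p A X with hy2d
    have e1 : Real.circleAverage (fun w => Real.log ((1 - th κ (fun x => cr t x (psi (Real.exp (-t)) w)) v hs p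
        (fun A => B * a1 A + B ^ 2 * a2 A) X) / (1 - κ * cr t v (psi (Real.exp (-t)) w)))) 0 1 =
        Av (fun θ => Real.log (1 - (B * y1 θ + B ^ 2 * y2 θ))) := by
      rw [circ_Av]
      congr 1
      funext θ
      have h5 : (1 - κ * cr t v (Z θ)) ≠ 0 := by
        have := (hDz (Z θ) (hZ θ)).1
        exact ne_of_gt (by linarith)
      have h6 := hth (Z θ) (hZ θ)
      change Real.log ((1 - th κ (fun x => cr t x (Z θ)) v hs p (fun A => B * a1 A + B ^ 2 * a2 A) X) /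
        (1 - κ * cr t v (Z θ))) = _
      rw [h6]
      congr 1
      rw [div_eq_iff h5, hy1d, hy2d]
      ring
    rw [e1]
    have hy1c : Continuous y1 := hyc a1 X
    have hy2c : Continuous y2 := hyc a2 X
    have hlogc : Continuous (fun θ => Real.log (1 - (B * y1 θ + B ^ 2 * y2 θ))) := by
      refine Continuous.log (continuous_const.sub ((continuous_const.mul hy1c).add
        (continuous_const.mul hy2c))) (fun θ => ?_)
      have h1 := (hpt (Z θ) (hZ θ)).1
      have h2 := (hz1 (Z θ) (hZ θ)).2.1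
      have h4 := (hz1 (Z θ) (hZ θ)).1
      have h3 : 2 * B * C * cr t v (Z θ) ≤ 2 * B * C * 3 := by gcongr
      have h5 := (abs_le.1 (h1.trans h3)).2
      refine ne_of_gt ?_
      change 0 < 1 - (B * (∑ A ∈ univ.erase (∅ : Finset (Fin m)),
        a1 A * (cr t (v * sz hs A) (Z θ) / (1 - κ * cr t v (Z θ))) * ee p A X) +
        B ^ 2 * (∑ A ∈ univ.erase (∅ : Finset (Fin m)),
        a2 A * (cr t (v * sz hs A) (Z θ) / (1 - κ * cr t v (Z θ))) * ee p A X))
      linarith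
    have hlow : Av (fun θ => -B * y1 θ + -B ^ 2 * y2 θ + -B ^ 2 * (y1 θ ^ 2 / 2) +
        (-50 * B ^ 3 * C ^ 6) * cr t v (Z θ) ^ 2) ≤ Av (fun θ => Real.log (1 - (B * y1 θ + B ^ 2 * y2 θ))) := by
      refine Av_mono ?_ hlogc (fun θ => (hpt (Z θ) (hZ θ)).2)
      have h1 := hcc v
      fun_prop
    refine le_trans ?_ hlow
    have e2 : Av (fun θ => -B * y1 θ + -B ^ 2 * y2 θ + -B ^ 2 * (y1 θ ^ 2 / 2) +
        (-50 * B ^ 3 * C ^ 6) * cr t v (Z θ) ^ 2) = -B * Av y1 + -B ^ 2 * Av y2 + -B ^ 2 * q X +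
        (-50 * B ^ 3 * C ^ 6) * Av (fun θ => cr t v (Z θ) ^ 2) := by
      have h1 := hcc v
      rw [Av_add (by fun_prop) (by fun_prop), Av_add (by fun_prop) (by fun_prop),
        Av_add (by fun_prop) (by fun_prop), Av_mul, Av_mul, Av_mul, Av_mul]
    rw [e2]
    have e3 : ∀ α : Finset (Fin m) → ℝ, Av (fun θ => ∑ A ∈ univ.erase (∅ : Finset (Fin m)),
        α A * r A θ * ee p A X) = ∑ A ∈ univ.erase (∅ : Finset (Fin m)), α A * W A * ee p A X := by
      intro α
      rw [Av_sum]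
      · refine Finset.sum_congr rfl fun A _ => ?_
        have : (fun θ => α A * r A θ * ee p A X) = fun θ => (α A * ee p A X) * r A θ := by
          funext θ; ring
        rw [this, Av_mul]
        ring
      · intro A _
        exact (continuous_const.mul (hrc A)).mul continuous_const
    have e4 : Av y1 = -((v * t) * ((if X = ∅ then (∏ c, (1 - p c))⁻¹ else 0) - 1)) := by
      rw [hy1d, e3, (hC m p hp).2.1 X, ← Finset.add_sum_erase univ _ (Finset.mem_univ (∅ : Finset (Fin m)))]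
      have h1 : ee p ∅ X = 1 := by simp [ee]
      rw [h1]
      simp only [Finset.card_empty, pow_zero, Finset.prod_empty, inv_one, mul_one, add_sub_cancel_left]
      rw [Finset.mul_sum, ← Finset.sum_neg_distrib]
      refine Finset.sum_congr rfl fun A hA => ?_
      have h3 := (hW0 A hA).ne'
      rw [ha1]
      field_simp
    have e5 : Av y2 = -(q X - gh ∅) := by
      rw [hy2d, e3, hghX X, ← Finset.add_sum_erase univ _ (Finset.mem_univ (∅ : Finset (Fin m)))]
      have h1 : ee p ∅ X = 1 := by simp [ee]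
      rw [h1, mul_one, add_sub_cancel_left, ← Finset.sum_neg_distrib]
      refine Finset.sum_congr rfl fun A hA => ?_
      have h3 := (hW0 A hA).ne'
      rw [ha2]
      field_simp
    -- the main term
    have e6 : gh ∅ ≤ (v * t) * ((1 / 2 + ε) * ∑ A ∈ univ.erase (∅ : Finset (Fin m)),
        (∏ c ∈ A, p c / (1 - p c)) / (sz hs A : ℝ)) := by
      rw [hgh0, hq, quad hC hp a1 r hrc, Finset.mul_sum, Finset.mul_sum]
      refine Finset.sum_le_sum fun A hA => ?_
      have hs1 : (1 : ℝ) ≤ sz hs A := by exact_mod_cast hsz1 A hA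
      have hs0 : (0 : ℝ) < sz hs A := by linarith
      set x : ℝ := ((v * sz hs A : ℕ) : ℝ) * t with hxd
      have hx0 : 0 < x := by rw [hxd]; push_cast; positivity
      have hxe : x = v * t * sz hs A := by rw [hxd]; push_cast; ring
      have hx8 : x ≤ ε1 / 8 := hx A
      -- the mean square of r
      have f1 : Av (fun θ => r A θ ^ 2) ≤ (1 + 2 * ε) * x := by
        calc Av (fun θ => r A θ ^ 2) ≤ Av (fun θ => (1 - ε1 / 8)⁻¹ ^ 2 * cr t (v * sz hs A) (Z θ) ^ 2) := by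
              refine Av_mono ((hrc A).pow 2) (continuous_const.mul ((hcc _).pow 2)) fun θ => ?_
              obtain ⟨h1, h2⟩ := hDz (Z θ) (hZ θ)
              obtain ⟨h3, -⟩ := hcA (Z θ) (hZ θ) A hA
              have h4 : 0 < 1 - ε1 / 8 := by linarith
              rw [← mul_pow, hrd]
              refine pow_le_pow_left₀ (div_nonneg h3.le (by linarith)) ?_ 2
              rw [div_eq_inv_mul]
              refine mul_le_mul_of_nonneg_right ?_ h3.le
              exact inv_anti₀ h4 h1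
          _ = (1 - ε1 / 8)⁻¹ ^ 2 * (Real.sinh x * Real.cosh x) := by rw [Av_mul, hav2]
          _ ≤ (1 - ε1 / 8)⁻¹ ^ 2 * (x * (1 + x ^ 2)) := by
              refine mul_le_mul_of_nonneg_left (sc_le hx0.le (by linarith)) (by positivity)
          _ = ((1 - ε1 / 8)⁻¹ ^ 2 * (1 + x ^ 2)) * x := by ring
          _ ≤ (1 + 2 * ε) * x := by
              refine mul_le_mul_of_nonneg_right ?_ hx0.le
              have h4 : 0 < 1 - ε1 / 8 := by linarith
              have h5 : (1 - ε1 / 8)⁻¹ ≤ 1 + ε1 / 4 := by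
                rw [inv_le_iff_one_le_mul₀ h4]
                nlinarith
              have h6 : (1 - ε1 / 8)⁻¹ ^ 2 ≤ (1 + ε1 / 4) ^ 2 :=
                pow_le_pow_left₀ (inv_nonneg.2 h4.le) h5 2
              have h7 : (1 + ε1 / 4) ^ 2 ≤ 1 + 5 / 8 * ε1 := by nlinarith
              have h8 : x ^ 2 ≤ ε1 / 64 := by nlinarith
              calc (1 - ε1 / 8)⁻¹ ^ 2 * (1 + x ^ 2) ≤ (1 + 5 / 8 * ε1) * (1 + ε1 / 64) := by
                    refine mul_le_mul (h6.trans h7) (by linarith) (by positivity) (by positivity)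
                _ ≤ 1 + 2 * ε := by nlinarith
      have f2 : a1 A ^ 2 = (∏ c ∈ A, (1 - p c))⁻¹ ^ 2 * (v * t / W A) ^ 2 := by
        rw [ha1]
        simp only [neg_sq, mul_pow]
        rw [← pow_mul, mul_comm A.card 2, pow_mul]
        norm_num
      have f3 : (v * t / W A) ^ 2 ≤ (1 / sz hs A) ^ 2 := by
        refine pow_le_pow_left₀ (div_nonneg hvt0.le (hW0 A hA).le) ?_ 2
        rw [div_le_div_iff₀ (hW0 A hA) hs0, one_mul]
        have := hW A hA
        rw [← hxe]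
        exact this
      have f4 : (∏ c ∈ A, (1 - p c))⁻¹ ^ 2 * (∏ c ∈ A, p c * (1 - p c)) = ∏ c ∈ A, p c / (1 - p c) := by
        rw [← Finset.prod_inv_distrib, ← Finset.prod_pow, ← Finset.prod_mul_distrib]
        refine Finset.prod_congr rfl fun c _ => ?_
        have : (1 - p c) ≠ 0 := by
          have := (hp c).2
          exact ne_of_gt (by linarith)
        field_simp
      have f5 : 0 ≤ ∏ c ∈ A, p c / (1 - p c) := Finset.prod_nonneg fun c _ =>
        div_nonneg (hp c).1 (by linarith [(hp c).2])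
      calc (a1 A ^ 2 * (∏ c ∈ A, p c * (1 - p c)) / 2) * Av (fun θ => r A θ ^ 2)
          = (∏ c ∈ A, p c / (1 - p c)) * ((v * t / W A) ^ 2) * (Av (fun θ => r A θ ^ 2) / 2) := by
            rw [f2, ← f4]; ring
        _ ≤ (∏ c ∈ A, p c / (1 - p c)) * ((1 / sz hs A) ^ 2) * (((1 + 2 * ε) * x) / 2) := by
            refine mul_le_mul (mul_le_mul_of_nonneg_left f3 f5) (by linarith) ?_ (by positivity)
            refine div_nonneg (Av_nonneg (fun θ => by positivity)) (by norm_num)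
        _ = (v * t) * ((1 / 2 + ε) * ((∏ c ∈ A, p c / (1 - p c)) / (sz hs A : ℝ))) := by
            rw [hxe]
            field_simp
    rw [e4, e5]
    have e7 : 50 * B ^ 3 * C ^ 6 * Av (fun θ => cr t v (Z θ) ^ 2) ≤ B ^ 2 * (ε * (v * t)) := by
      calc 50 * B ^ 3 * C ^ 6 * Av (fun θ => cr t v (Z θ) ^ 2) ≤ 50 * B ^ 3 * C ^ 6 * (2 * (v * t)) := by gcongr
        _ = B ^ 2 * ((100 * B * C ^ 6) * (v * t)) := by ring
        _ ≤ B ^ 2 * (ε1 * (v * t)) := by gcongr
        _ ≤ B ^ 2 * (ε * (v * t)) := by gcongr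
    have e8 : B ^ 2 * gh ∅ ≤ B ^ 2 * ((v * t) * ((1 / 2 + ε) * ∑ A ∈ univ.erase (∅ : Finset (Fin m)),
        (∏ c ∈ A, p c / (1 - p c)) / (sz hs A : ℝ))) := by gcongr
    linarith [e7, e8]

end Pool.Agent.U808.NWS
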